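import Pool.Agent.Helper76.FT.GoalsG

/-!
# Packet FT-HEIGHT (MP_39e2b7_an, helper76): the height is Hoelder and controlled by `Im c`
-/

set_option autoImplicit false

namespace Pool.Agent.Helper29.FT

open Complex Set Filter Topology MeasureTheory Pool.Agent.Helper76.FT

theorem isOpen_Str (ρ : ℝ) : IsOpen (Str ρ) := by
  have h : Continuous fun z : ℂ => |z.im| := Complex.continuous_im.abs
  exact isOpen_lt h continuous_const

theorem real_mem_Str {ρ : ℝ} (hρ : 0 < ρ) (x : ℝ) : (x : ℂ) ∈ Str ρ := by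
  show |((x : ℂ)).im| < ρ
  simpa using hρ

theorem ft_height : Pool.Agent.Helper76.FT.GSlope → Pool.Agent.Helper76.FT.GTorP →
    Pool.Agent.Helper76.FT.GHeight := by
  intro hSl hTP S hS
  obtain ⟨δ₁, C₁, hδ₁, hC₁, hsl⟩ := hSl S hS
  obtain ⟨k0, M, hk0, hM, htp⟩ := hTP S hS
  set L : ℝ := 3 * C₁ * (1 + M) with hL
  have hLpos : 0 < L := by positivity
  set L' : ℝ := L + 1 with hL'
  have hL'1 : 1 ≤ L' := by linarith
  refine ⟨min δ₁ 1, L + 4 * L' / k0, by positivity, by positivity, ?_⟩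
  intro δ ρ w c hδ hT
  have hδ1 : δ ≤ δ₁ := hδ.trans (min_le_left _ _)
  have hδ2 : δ ≤ 1 := hδ.trans (min_le_right _ _)
  have hsl' := hsl δ ρ w c hδ1 hT
  obtain ⟨hshP, -, -, -, hwt, hint, hbd⟩ := htp δ ρ w c hT
  have hHpos : ∀ x : ℝ, ∀ t ∈ Icc (0:ℝ) 1, 0 < (w (x : ℂ) t).im := fun x t ht => (hT.pos x t ht).1
  have hHle : ∀ x : ℝ, ∀ t ∈ Icc (0:ℝ) 1, (w (x : ℂ) t).im ≤ δ := fun x t ht => (hT.pos x t ht).2
  -- the derivative in `x`
  have hx : ∀ t ∈ Icc (0:ℝ) 1, ∀ x x' : ℝ,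
      |(w (x : ℂ) t).im ^ 3 - (w (x' : ℂ) t).im ^ 3| ≤ 3 * C₁ * |x - x'| := by
    intro t ht x x'
    have hd : ∀ y ∈ (univ : Set ℝ), HasDerivWithinAt (fun y : ℝ => (w (y : ℂ) t).im ^ 3)
        (3 * (w (y : ℂ) t).im ^ 2 * (dz w (y : ℂ) t).im) univ y := by
      intro y _
      rw [hasDerivWithinAt_univ]
      have h1 : HasDerivAt (fun z => w z t) (dz w (y : ℂ) t) (y : ℂ) :=
        ((hT.sh.hol t ht).differentiableAt
          ((isOpen_Str ρ).mem_nhds (real_mem_Str hT.hρ y))).hasDerivAt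
      have h2 : HasDerivAt (fun y : ℝ => w (y : ℂ) t) (dz w (y : ℂ) t) y := h1.comp_ofReal
      have h3 : HasDerivAt (fun y : ℝ => (w (y : ℂ) t).im) (dz w (y : ℂ) t).im y :=
        (Complex.imCLM.hasFDerivAt).comp_hasDerivAt y h2
      exact (h3.pow 3).congr_deriv (by norm_num)
    have hb : ∀ y ∈ (univ : Set ℝ),
        ‖3 * (w (y : ℂ) t).im ^ 2 * (dz w (y : ℂ) t).im‖ ≤ 3 * C₁ := by
      intro y _
      have h1 := hsl' y t ht
      have h2 : |(dz w (y : ℂ) t).im| ≤ ‖dz w (y : ℂ) t‖ := Complex.abs_im_le_norm _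
      have h3 : 0 ≤ (w (y : ℂ) t).im ^ 2 := sq_nonneg _
      rw [Real.norm_eq_abs, abs_mul, abs_mul, abs_of_nonneg h3, abs_of_pos (by norm_num : (0:ℝ) < 3)]
      nlinarith [mul_le_mul_of_nonneg_right h2 h3]
    have := Convex.norm_image_sub_le_of_norm_hasDerivWithin_le hd hb convex_univ
      (mem_univ x') (mem_univ x)
    simpa [Real.norm_eq_abs] using this
  -- the derivative in `t`
  have ht' : ∀ x : ℝ, ∀ t ∈ Icc (0:ℝ) 1, ∀ t' ∈ Icc (0:ℝ) 1,
      |(w (x : ℂ) t).im ^ 3 - (w (x : ℂ) t').im ^ 3| ≤ 3 * C₁ * M * |t - t'| := by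
    intro x t ht t' ht'
    have hd : ∀ s ∈ Icc (0:ℝ) 1, HasDerivWithinAt (fun s : ℝ => (w (x : ℂ) s).im ^ 3)
        (3 * (w (x : ℂ) s).im ^ 2 * (-(w (x : ℂ) s * dz w (x : ℂ) s)).im) (Icc (0:ℝ) 1) s := by
      intro s hs
      have h2 : HasDerivWithinAt (fun s : ℝ => w (x : ℂ) s) (-(w (x : ℂ) s * dz w (x : ℂ) s))
        (Icc (0:ℝ) 1) s := hwt (x : ℂ) (real_mem_Str hT.hρ x) s hs
      have h3 : HasDerivWithinAt (fun s : ℝ => (w (x : ℂ) s).im)
          (-(w (x : ℂ) s * dz w (x : ℂ) s)).im (Icc (0:ℝ) 1) s :=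
        (Complex.imCLM.hasFDerivAt).comp_hasDerivWithinAt s h2
      exact (h3.pow 3).congr_deriv (by norm_num)
    have hb : ∀ s ∈ Icc (0:ℝ) 1,
        ‖3 * (w (x : ℂ) s).im ^ 2 * (-(w (x : ℂ) s * dz w (x : ℂ) s)).im‖ ≤ 3 * C₁ * M := by
      intro s hs
      have h1 := hsl' x s hs
      have h2 : |(-(w (x : ℂ) s * dz w (x : ℂ) s)).im| ≤ ‖w (x : ℂ) s‖ * ‖dz w (x : ℂ) s‖ := by
        refine (Complex.abs_im_le_norm _).trans ?_
        rw [norm_neg, norm_mul]
      have h3 : 0 ≤ (w (x : ℂ) s).im ^ 2 := sq_nonneg _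
      have h5 : ‖w (x : ℂ) s‖ ≤ M := (hbd x s hs).2.2.2.2.2
      have h6 : ‖w (x : ℂ) s‖ * ‖dz w (x : ℂ) s‖ ≤ M * ‖dz w (x : ℂ) s‖ :=
        mul_le_mul_of_nonneg_right h5 (norm_nonneg _)
      have h7 : |(-(w (x : ℂ) s * dz w (x : ℂ) s)).im| ≤ M * ‖dz w (x : ℂ) s‖ := h2.trans h6
      rw [Real.norm_eq_abs, abs_mul, abs_mul, abs_of_nonneg h3, abs_of_pos (by norm_num : (0:ℝ) < 3)]
      have h8 := mul_le_mul_of_nonneg_right h7 h3
      have h9 := mul_le_mul_of_nonneg_left h1 hM.le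
      nlinarith
    have := Convex.norm_image_sub_le_of_norm_hasDerivWithin_le hd hb (convex_Icc 0 1) ht' ht
    simpa [Real.norm_eq_abs] using this
  -- the integral estimate
  have key : ∀ x : ℝ, ∀ t ∈ Icc (0:ℝ) 1, k0 / (4 * L') * (w (x : ℂ) t).im ^ 4 ≤ c.im := by
    intro x0 t ht
    set h := (w (x0 : ℂ) t).im with hh
    have hpos : 0 < h := hHpos x0 t ht
    have hle1 : h ≤ 1 := (hHle x0 t ht).trans hδ2
    set ℓ : ℝ := h ^ 3 / (2 * L') with hℓ
    have hℓ0 : 0 < ℓ := by positivity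
    have hh3 : h ^ 3 ≤ 1 := pow_le_one₀ hpos.le hle1
    have hℓ1 : ℓ ≤ 1 := by
      rw [hℓ, div_le_one (by positivity)]
      linarith
    -- continuity and periodicity
    set P : ℝ → ℂ := fun x => S.p t (x : ℂ) (w (x : ℂ) t) with hP
    have hPc : Continuous P := by
      have h1 : ContinuousOn (fun z : ℂ => S.p t z (w z t)) (Str ρ) := (hshP.hol t ht).continuousOn
      exact h1.comp_continuous Complex.continuous_ofReal (fun x => real_mem_Str hT.hρ x)
    have hPper : Function.Periodic (fun x => (P x).im) 1 := by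
      intro x
      show (S.p t ((x + 1 : ℝ) : ℂ) (w ((x + 1 : ℝ) : ℂ) t)).im = (S.p t (x : ℂ) (w (x : ℂ) t)).im
      have := hshP.per (x : ℂ) (real_mem_Str hT.hρ x) t ht
      push_cast
      rw [this]
    have hPic : Continuous fun x => (P x).im := Complex.continuous_im.comp hPc
    have e1 : c.im = ∫ x in (0:ℝ)..1, (P x).im := by
      have h1 := hint t ht
      have h2 := Complex.imCLM.intervalIntegral_comp_comm (μ := volume) (a := 0) (b := 1)
        (hPc.intervalIntegrable 0 1)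
      rw [show (∫ x in (0:ℝ)..1, P x) = c from h1] at h2
      exact h2.symm
    have e2 : (∫ x in (0:ℝ)..1, (P x).im) = ∫ x in x0..(x0 + 1), (P x).im := by
      have := hPper.intervalIntegral_add_eq 0 x0
      rwa [zero_add] at this
    have hPlow : ∀ x : ℝ, k0 * (w (x : ℂ) t).im ≤ (P x).im := fun x => (hbd x t ht).1
    have hPnn : ∀ x : ℝ, 0 ≤ (P x).im := fun x =>
      (mul_nonneg hk0.le (hHpos x t ht).le).trans (hPlow x)
    have e3 : (∫ x in x0..(x0 + ℓ), (P x).im) ≤ ∫ x in x0..(x0 + 1), (P x).im := by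
      refine intervalIntegral.integral_mono_interval le_rfl (by linarith) (by linarith) ?_
        (hPic.intervalIntegrable _ _)
      exact Filter.Eventually.of_forall hPnn
    have e4 : (∫ _x in x0..(x0 + ℓ), k0 * (h / 2)) ≤ ∫ x in x0..(x0 + ℓ), (P x).im := by
      refine intervalIntegral.integral_mono_on (by linarith) (by simp)
        (hPic.intervalIntegrable _ _) ?_
      intro x hxm
      refine le_trans ?_ (hPlow x)
      refine mul_le_mul_of_nonneg_left ?_ hk0.le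
      -- `H x ≥ h / 2`
      have h1 := hx t ht x x0
      have h2 : |x - x0| ≤ ℓ := by
        rw [abs_of_nonneg (by linarith [hxm.1])]
        linarith [hxm.2]
      have h3 : 3 * C₁ ≤ L' := by
        have : 3 * C₁ * M ≥ 0 := by positivity
        have : L = 3 * C₁ + 3 * C₁ * M := by rw [hL]; ring
        linarith
      have h4 : 3 * C₁ * |x - x0| ≤ h ^ 3 / 2 := by
        calc 3 * C₁ * |x - x0| ≤ L' * ℓ := by gcongr
          _ = h ^ 3 / 2 := by rw [hℓ]; field_simp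
      have h5 : h ^ 3 / 2 ≤ (w (x : ℂ) t).im ^ 3 := by
        have := abs_le.1 (h1.trans h4)
        linarith [this.1]
      by_contra hlt
      push Not at hlt
      have h6 : (w (x : ℂ) t).im ^ 3 < (h / 2) ^ 3 :=
        pow_lt_pow_left₀ hlt (hHpos x t ht).le (by norm_num)
      have h7 : (h / 2) ^ 3 ≤ h ^ 3 / 2 := by
        have : 0 < h ^ 3 := by positivity
        nlinarith
      linarith
    rw [intervalIntegral.integral_const] at e4
    have e5 : (x0 + ℓ - x0) • (k0 * (h / 2)) = k0 / (4 * L') * h ^ 4 := by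
      rw [smul_eq_mul, hℓ]
      field_simp
      ring
    rw [e5] at e4
    rw [e1, e2]
    linarith
  refine ⟨?_, ?_, ?_⟩
  · intro x x' t ht t' htt'
    have h1 := hx t ht x x'
    have h2 := ht' x' t ht t' htt'
    have h3 : |(w (x : ℂ) t).im ^ 3 - (w (x' : ℂ) t').im ^ 3| ≤
        3 * C₁ * |x - x'| + 3 * C₁ * M * |t - t'| := by
      calc |(w (x : ℂ) t).im ^ 3 - (w (x' : ℂ) t').im ^ 3|
          = |((w (x : ℂ) t).im ^ 3 - (w (x' : ℂ) t).im ^ 3) +
            ((w (x' : ℂ) t).im ^ 3 - (w (x' : ℂ) t').im ^ 3)| := by ring_nf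
        _ ≤ _ := (abs_add_le _ _).trans (add_le_add h1 h2)
    refine h3.trans ?_
    have h4 : 0 ≤ 4 * L' / k0 := by positivity
    have h5 : 0 ≤ |x - x'| := abs_nonneg _
    have h6 : 0 ≤ |t - t'| := abs_nonneg _
    have h7 : 3 * C₁ * |x - x'| + 3 * C₁ * M * |t - t'| ≤ L * (|x - x'| + |t - t'|) := by
      rw [hL]
      nlinarith [mul_nonneg (mul_nonneg hC₁.le hM.le) h5, mul_nonneg hC₁.le h6]
    nlinarith [mul_nonneg h4 (add_nonneg h5 h6)]
  · intro x t ht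
    have h1 := key x t ht
    have h2 : 0 ≤ c.im := le_trans (by positivity) h1
    have h3 : (w (x : ℂ) t).im ^ 4 ≤ 4 * L' / k0 * c.im := by
      have h4 : (w (x : ℂ) t).im ^ 4 = 4 * L' / k0 * (k0 / (4 * L') * (w (x : ℂ) t).im ^ 4) := by
        field_simp
      rw [h4]
      exact mul_le_mul_of_nonneg_left h1 (by positivity)
    nlinarith [mul_nonneg hLpos.le h2]
  · have h0 : (0:ℝ) ∈ Icc (0:ℝ) 1 := ⟨le_rfl, zero_le_one⟩
    have h1 := key 0 0 h0
    have h2 : 0 < (w ((0:ℝ) : ℂ) 0).im := hHpos 0 0 h0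
    have h3 : 0 < k0 / (4 * L') * (w ((0:ℝ) : ℂ) 0).im ^ 4 := by positivity
    linarith

end Pool.Agent.Helper29.FT
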