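import Pool.Agent.Helper76.FT.GoalsB

/-!
# Packet FT-MINP (MP_39e2b7_an, helper76): minimum principle
-/

set_option autoImplicit false

namespace Pool.Agent.Helper29.FT

open Complex Set Filter Topology Pool.Agent.Helper76.FT

theorem ft_minp : Pool.Agent.Helper76.FT.GMinP := by
  intro C f hC hb hf halt z₀ hz₀
  by_contra hcon
  push Not at hcon
  have hcomp : IsCompact (closure C) := hb.isCompact_closure
  have hne : (closure C).Nonempty := ⟨z₀, subset_closure hz₀⟩
  have hre : ContinuousOn (fun z => (f z).re) (closure C) :=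
    Complex.continuous_re.comp_continuousOn hf
  obtain ⟨zm, hzm, hmin⟩ := hcomp.exists_isMinOn hne hre
  set m := (f zm).re with hm
  have hle : ∀ z ∈ closure C, m ≤ (f z).re := fun z hz => hmin hz
  let Mn : Set (ℝ × ℝ) := closure C ∩ (fun z => (f z).re) ⁻¹' {m}
  have hMclosed : IsClosed Mn :=
    hre.preimage_isClosed_of_isClosed isClosed_closure isClosed_singleton
  have hMC : Mn ⊆ C := by
    intro z hz
    by_contra hzC
    have hfr : z ∈ frontier C := by
      rw [frontier, hC.interior_eq]
      exact ⟨hz.1, hzC⟩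
    have h1 := hcon z hfr
    have h2 : (f z).re = m := hz.2
    have h3 := hle z₀ (subset_closure hz₀)
    linarith
  have hMopen : IsOpen Mn := by
    rw [isOpen_iff_mem_nhds]
    intro z hz
    have hzC : z ∈ C := hMC hz
    have hCn : C ∈ 𝓝 z := hC.mem_nhds hzC
    rcases halt z hzC with h1 | h2
    · filter_upwards [h1, hCn] with y hy hyC
      refine ⟨subset_closure hyC, ?_⟩
      show (f y).re = m
      rw [hy]
      exact hz.2
    · exfalso
      have h3 : f '' C ∈ 𝓝 (f z) := h2 (mem_map.mpr (mem_of_superset hCn (subset_preimage_image f C)))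
      obtain ⟨ε, hε, hball⟩ := Metric.mem_nhds_iff.mp h3
      have h4 : f z - ((ε / 2 : ℝ) : ℂ) ∈ Metric.ball (f z) ε := by
        rw [Metric.mem_ball, dist_eq_norm]
        have : f z - ((ε / 2 : ℝ) : ℂ) - f z = -((ε / 2 : ℝ) : ℂ) := by ring
        rw [this, norm_neg, Complex.norm_real, Real.norm_eq_abs, abs_of_pos (by positivity)]
        linarith
      obtain ⟨y, hyC, hy⟩ := hball h4
      have h5 := hle y (subset_closure hyC)
      have h6 : (f y).re = (f z).re - ε / 2 := by
        rw [hy]; simp
      have h7 : (f z).re = m := hz.2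
      linarith
  have huniv : Mn = univ := by
    have := IsClopen.eq_univ ⟨hMclosed, hMopen⟩ ⟨zm, hzm, rfl⟩
    exact this
  have hbu : Bornology.IsBounded (univ : Set (ℝ × ℝ)) := by
    rw [← huniv]
    exact hb.subset hMC
  obtain ⟨R, hR⟩ := hbu.exists_norm_le
  have h8 := hR (R + 1, 0) (mem_univ _)
  have h9 : |R + 1| ≤ ‖((R + 1, 0) : ℝ × ℝ)‖ := by
    have := norm_fst_le ((R + 1, 0) : ℝ × ℝ)
    simpa using this
  have h10 : R + 1 ≤ |R + 1| := le_abs_self _
  linarith

end Pool.Agent.Helper29.FT
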